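import Pool.Agent.Lib.MP_b5b7b7_an.Transfer

/-!
# Strong unique continuation fails for harmonic functions on stationary varifolds
-/

set_option autoImplicit false

open Metric SUC

namespace Pool.Agent.Results.MP_b5b7b7_an.StrongUCFails

/-- There are an open set `U ⊆ ℝ⁶`, a stationary integral `2`-varifold `V` in `U`, a function `h` of
class `C¹` in `U` that is harmonic on `V`, and a point `x₀ ∈ supp V ∩ U` at which `h` vanishes to
infinite order in `L²(‖V‖)`, such that `h` is not identically zero on `supp V ∩ B_r(x₀)` for any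
`r > 0`. -/
theorem result :
    ∃ (U : Set (Eu 6)) (V : IntegralVarifold 2 6 U) (h : Eu 6 → ℝ) (x₀ : Eu 6),
      IsOpen U ∧ V.Stationary ∧ V.Harmonic h ∧ x₀ ∈ V.supp ∩ U ∧ V.FlatAt h x₀ ∧
        ∀ r : ℝ, 0 < r → ∃ x ∈ V.supp ∩ ball x₀ r, h x ≠ 0 :=
  ⟨ball (0 : Eu 6) (1 / 2), ofOld VUC.VV, VUC.HH, 0, isOpen_ball, ofOld_stationary VUC.VV_stationary,
    ofOld_harmonic VUC.VV_harmonic, ⟨VUC.zero_mem_supp, mem_ball_self (by norm_num)⟩,
    ofOld_flatAt VUC.VV_flat, VUC.VV_nonzero⟩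

end Pool.Agent.Results.MP_b5b7b7_an.StrongUCFails
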